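import Pool.Agent.SGP20.Fin
import Pool.Agent.SGP51.Second
import Pool.Agent.SGP51.Moment

set_option autoImplicit false

/-!
# Sun's Goldbach problem with a Legendre symbol condition: a positive proportion of all `n`
-/

namespace Pool.Agent.Results.MP_4bff42_nt.PositiveProportion

/-- The prime `q` is as asked for in the question for `n`: `2 n - q` is prime, `q ≤ n`, and
`((q + 1) / 2 / l) = 1` for every prime `l` which divides `2 n + 1`. -/
def Good (n q : ℕ) : Prop :=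
  q.Prime ∧ (2 * n - q).Prime ∧ q ≤ n ∧
    ∀ (l : ℕ) [Fact l.Prime], l ∣ 2 * n + 1 → legendreSym l (((q + 1) / 2 : ℕ) : ℤ) = 1

theorem two_ne {n l : ℕ} [hl : Fact l.Prime] (h : l ∣ 2 * n + 1) : (2 : ZMod l) ≠ 0 :=
  Pool.Agent.SGP20.two_ne h

/-- the mechanism -/
theorem auto {p q n y k s : ℕ} (hp : p.Prime) (hq : q.Prime) (hq2 : q ≠ 2) (hqp : q ≤ p)
    (hn : 2 * n = p + q) (hy : y.Coprime (2 * n + 1))
    (hs : y ^ 2 * ((q + 1) / 2) + k * (2 * n + 1) = s ^ 2) (l : ℕ) [hl : Fact l.Prime]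
    (h : l ∣ 2 * n + 1) : legendreSym l (((q + 1) / 2 : ℕ) : ℤ) = 1 := by
  obtain ⟨u, hu⟩ : ∃ u, q = 2 * u + 1 := hq.odd_of_ne_two hq2
  have h1 : (q + 1) / 2 = u + 1 := by omega
  rw [h1] at hs ⊢
  have hq3 : 3 ≤ q := by
    have := hq.two_le
    omega
  have h3 : ((2 * n + 1 : ℕ) : ZMod l) = 0 := (ZMod.natCast_eq_zero_iff _ _).2 h
  have h6 : ((u : ZMod l) + 1) ≠ 0 := by
    intro h0
    have h7 : l ∣ u + 1 := by
      rw [← ZMod.natCast_eq_zero_iff]
      push_cast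
      exact h0
    have h8 : l ∣ p := by
      have h5 : 2 * n + 1 = p + 2 * (u + 1) := by omega
      rw [h5] at h
      exact (Nat.dvd_add_left (h7.trans (Dvd.intro_left _ rfl))).1 h
    have h9 : l = p := (Nat.prime_dvd_prime_iff_eq hl.out hp).1 h8
    have h10 : p ≤ u + 1 := h9 ▸ Nat.le_of_dvd (Nat.succ_pos u) h7
    omega
  have hy0 : (y : ZMod l) ≠ 0 := by
    intro h0
    have h7 : l ∣ y := (ZMod.natCast_eq_zero_iff _ _).1 h0
    have h8 := Nat.eq_one_of_dvd_coprimes hy h7 h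
    exact hl.out.one_lt.ne' h8
  have h5 : (s : ZMod l) ^ 2 = (y : ZMod l) ^ 2 * ((u : ZMod l) + 1) := by
    have h6 : ((s ^ 2 : ℕ) : ZMod l) = ((y ^ 2 * (u + 1) + k * (2 * n + 1) : ℕ) : ZMod l) := by
      rw [hs]
    rw [Nat.cast_add, Nat.cast_mul k, h3, mul_zero, add_zero] at h6
    push_cast at h6
    exact h6
  have hs0 : (s : ZMod l) ≠ 0 := by
    intro h0
    rw [h0, zero_pow two_ne_zero] at h5
    exact (mul_ne_zero (pow_ne_zero 2 hy0) h6) h5.symm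
  have h7 : legendreSym l ((y : ℤ) ^ 2 * ((u + 1 : ℕ) : ℤ)) = legendreSym l ((s : ℤ) ^ 2) := by
    unfold legendreSym
    have : (((y : ℤ) ^ 2 * ((u + 1 : ℕ) : ℤ) : ℤ) : ZMod l) = (((s : ℤ) ^ 2 : ℤ) : ZMod l) := by
      push_cast
      rw [h5]
    rw [this]
  have h8 : legendreSym l ((s : ℤ) ^ 2) = 1 := legendreSym.sq_one' l (by push_cast; exact hs0)
  rw [legendreSym.mul, legendreSym.sq_one' l (by push_cast; exact hy0), one_mul, h8] at h7
  exact h7

theorem criterion {p q n : ℕ} (hq : q.Prime) (hq2 : q ≠ 2) (hn : 2 * n = p + q) (l : ℕ)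
    [hl : Fact l.Prime] (h : l ∣ 2 * n + 1) :
    legendreSym l (((q + 1) / 2 : ℕ) : ℤ) = legendreSym l (-(2 * p : ℤ)) := by
  have h2 := two_ne h
  obtain ⟨u, hu⟩ : ∃ u, q = 2 * u + 1 := hq.odd_of_ne_two hq2
  have h1 : (q + 1) / 2 = u + 1 := by omega
  have h3 : ((2 * n + 1 : ℕ) : ZMod l) = 0 := (ZMod.natCast_eq_zero_iff _ _).2 h
  have h4 : (p : ZMod l) = -(2 * ((u : ZMod l) + 1)) := by
    have h5 : 2 * n + 1 = p + 2 * (u + 1) := by omega
    rw [h5] at h3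
    push_cast at h3
    linear_combination h3
  have h6 : (((-(2 * p : ℤ)) : ℤ) : ZMod l) = (((2 : ℤ) ^ 2 * ((u + 1 : ℕ) : ℤ) : ℤ) : ZMod l) := by
    push_cast
    rw [h4]
    ring
  have h7 : legendreSym l (-(2 * p : ℤ)) = legendreSym l ((2 : ℤ) ^ 2 * ((u + 1 : ℕ) : ℤ)) := by
    unfold legendreSym
    rw [h6]
  rw [h7, legendreSym.mul, legendreSym.sq_one' l (by push_cast; exact h2), one_mul, h1]

/-- (1) For some `c > 0` and all large `N`, at least `c N` of the `n ≤ N` have at least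
`c √N / (log N) ^ 2` primes `q` as asked for in the question. (2) For primes `q ≤ p` with
`p + q = 2 n` and `q ≠ 2` the Legendre symbol condition is automatic as soon as
`y ^ 2 (q + 1) / 2 + k (2 n + 1)` is a square for some `y` prime to `2 n + 1` and some `k ≥ 0`
(for instance if `p + 9 (q + 1)` is a square, or `q = 2 m ^ 2 - 1`). (3) It says that `- 2 p` is a
nonzero square modulo every prime factor of `2 n + 1`. -/
theorem result :
    (∃ c : ℝ, 0 < c ∧ ∃ N₀ : ℕ, ∀ N : ℕ, N₀ ≤ N →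
      c * N ≤ (((Finset.Icc 1 N).filter (fun n : ℕ => c * Real.sqrt N / Real.log N ^ 2 ≤
        (Nat.card {q : ℕ // Good n q} : ℝ))).card : ℝ)) ∧
    (∀ p q n y k s : ℕ, p.Prime → q.Prime → q ≠ 2 → q ≤ p → 2 * n = p + q →
      y.Coprime (2 * n + 1) → y ^ 2 * ((q + 1) / 2) + k * (2 * n + 1) = s ^ 2 →
      ∀ (l : ℕ) [Fact l.Prime], l ∣ 2 * n + 1 → legendreSym l (((q + 1) / 2 : ℕ) : ℤ) = 1) ∧
    (∀ p q n : ℕ, q.Prime → q ≠ 2 → 2 * n = p + q → ∀ (l : ℕ) [Fact l.Prime], l ∣ 2 * n + 1 →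
      legendreSym l (((q + 1) / 2 : ℕ) : ℤ) = legendreSym l (-(2 * p : ℤ))) := by
  refine ⟨?_, fun p q n y k s hp hq hq2 hqp hn hy hs l _ hl => auto hp hq hq2 hqp hn hy hs l hl,
    fun p q n hq hq2 hn l _ hl => criterion hq hq2 hn l hl⟩
  exact Pool.Agent.SGP20.main Pool.Agent.SGP51.many_pairs Pool.Agent.SGP51.second_moment

end Pool.Agent.Results.MP_4bff42_nt.PositiveProportion
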